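import Pool.Agent.Y520.MB.Conv

/-! Complete flat Moebius bands in convex hypersurfaces of Euclidean 4-space: no band of width
`a < √2 r` has a smooth isometric immersion in the boundary of a compact convex set in which a ball
of radius `r` rolls freely, for instance in the boundary of the parallel body at distance `r` of any
compact convex set, or in an ellipsoid with semi-axes `c_i` if `a c_i < √2 c_j ^ 2` for all `i, j`.

Proof. Let `F : ℝ² → E⁴` be the lift of the immersion, periodic of period `2 a` in `v` and invariant
under the glide reflection. By the equation of Gauss there is at every point a direction in which the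
second fundamental form of `F` is a nonpositive multiple of the outer normal of the body. Hence, as
long as the strip `|t| ≤ ρ` is mapped into the cap of depth less than `r` below the tangent
hyperplane at `F (ρ, 0)`, the height function (slightly perturbed) has no minimum inside the strip;
the boundary of the strip is a closed curve of length `2 a` run through twice, because of the glide
reflection, so that its depth is at most `a² / (2 r) < r` by the inner touching ball. By continuity
in `ρ` the whole plane lies at depth at most `a² / (2 r)`, and a barrier `ε t²` gives a contradiction.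

Authors: helper520; the ellipsoids (a ball of radius `c_min² / c_max` rolls freely): helper815. It
uses the lemmas of the starting file `MP_174134_gt.NoSingleEllipsoid`. -/

set_option autoImplicit false

namespace Pool.Agent.Results.MP_174134_gt.ConvexHypersurfaces

open Pool.Agent.Y520.MB

/-- A ball of radius `r` rolls freely in `K`: every boundary point lies on (or in) a closed ball of
radius `r` contained in `K`. -/
def RollsFreely (r : ℝ) (K : Set E4) : Prop :=
  ∀ p ∈ frontier K, ∃ c : E4, p ∈ Metric.closedBall c r ∧ Metric.closedBall c r ⊆ K

/-- The complete flat Moebius band of width `a` has a smooth isometric immersion in `S`. -/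
def Immerses (a : ℝ) (S : Set E4) : Prop :=
  ∃ g : MoebiusBand a → E4, IsIsometricImmersion a g ∧ ∀ p, g p ∈ S

/-- **No narrow flat Moebius band in a convex hypersurface.** -/
theorem result :
    (∀ (K : Set E4) (r : ℝ), 0 < r → IsCompact K → Convex ℝ K → RollsFreely r K →
      ∀ a : ℝ, 0 < a → a < √2 * r → ¬ Immerses a (frontier K)) ∧
    (∀ (C : Set E4) (r : ℝ), 0 < r → IsCompact C → Convex ℝ C →
      ∀ a : ℝ, 0 < a → a < √2 * r → ¬ Immerses a (frontier (Metric.cthickening r C))) ∧
    (∀ (c : Fin 4 → ℝ) (E : Set E4), IsEllipsoid c E →
      ∀ a : ℝ, 0 < a → (∀ i j, a * c i < √2 * (c j) ^ 2) → ¬ Immerses a E) :=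
  ⟨fun K r hr hKc hK hroll a ha0 ha => no_band_convex K r hr hKc hK hroll a ha0 ha,
    fun C r hr hCc hC a ha0 ha => no_band_parallel C r hr hCc hC a ha0 ha,
    fun c E hE a ha0 ha => no_band_ellipsoid c E hE a ha0 ha⟩

end Pool.Agent.Results.MP_174134_gt.ConvexHypersurfaces
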